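import Pool.Agent.H94.LP1.M09

/-!
# Module CremR (PR): Cremona reduction in `ℙ^r`
-/

namespace Pool.Agent.H18.Pr

open Finset Pool.Agent.H18.Ex Pool.Agent.H18.Cub Pool.Agent.H18.Fat

/-- `Cremona r d m d' m'`: finitely many standard Cremona transformations of `ℙ^r`, each based at
`r + 1` of the points, lead from the degree `d` and the multiplicities `m` to `d'` and `m'`, negative
multiplicities being replaced by `0` (truncated subtraction).  In one step based at the points `J l`
the new degree `d₁` is `r d - ∑ m (J l)` and the new multiplicities are `m (J l) + d₁ - d`, the other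
multiplicities being unchanged; it is required that `m (J l) ≤ d`. -/
inductive Cremona (r : ℕ) {k : ℕ} : ℕ → (Fin k → ℕ) → ℕ → (Fin k → ℕ) → Prop
  | refl (d : ℕ) (m : Fin k → ℕ) : Cremona r d m d m
  | step {d d₁ d' : ℕ} {m m₁ m' : Fin k → ℕ} (J : Fin (r + 1) ↪ Fin k)
      (hJ : ∀ l, m (J l) ≤ d) (hd : ∑ l, m (J l) + d₁ = r * d)
      (hm : ∀ l, m₁ (J l) = d₁ + m (J l) - d) (hm' : ∀ i, (∀ l, J l ≠ i) → m₁ i = m i)
      (h : Cremona r d₁ m₁ d' m') : Cremona r d m d' m'

/-- The general dimension after a Cremona reduction. -/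
theorem Cremona.general {r k d d' : ℕ} {m m' : Fin k → ℕ} (h : Cremona r d m d' m') (v : ℕ) :
    (ForGeneralPoints r k fun p => Module.finrank ℂ (fatForms r d p m) = v) ↔
      ForGeneralPoints r k fun p => Module.finrank ℂ (fatForms r d' p m') = v := by
  induction h with
  | refl d m => exact Iff.rfl
  | step J hJ hd hm hm' h ih => rw [cremona_general _ _ J hJ hd hm hm' v, ih]

/-- The first coordinates of general points do not vanish. -/
theorem general_ne_zero (r k : ℕ) : ForGeneralPoints r k fun p => ∀ i, p i 0 ≠ 0 := by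
  refine ⟨∏ i : Fin k, MvPolynomial.X (i, 0), ?_, fun p hp i hi => ?_⟩
  · rw [prod_ne_zero_iff]
    intro i _
    exact MvPolynomial.X_ne_zero _
  · apply hp
    rw [map_prod]
    apply prod_eq_zero (mem_univ i)
    rw [MvPolynomial.eval_X]
    exact hi

/-- The final statement: the dimension and the failing tuples. -/
theorem cremona_final {r k d d' : ℕ} (hr : 1 ≤ r) {m m' : Fin k → ℕ} (h : Cremona r d m d' m')
    (h' : ForGeneralPoints r k fun p => ImposesMaximalConditions r d' p m') :
    ForGeneralPoints r k fun p =>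
      (Module.finrank ℂ (fatForms r d p m) : ℤ) =
        max 0 (((d' + r).choose r : ℤ) - ∑ i, ((m' i + r - 1).choose r : ℤ)) ∧
      (¬ ImposesMaximalConditions r d p m ↔
        0 < ((d' + r).choose r : ℤ) - ∑ i, ((m' i + r - 1).choose r : ℤ) ∧
        ((d + r).choose r : ℤ) - ∑ i, ((m i + r - 1).choose r : ℤ) <
          ((d' + r).choose r : ℤ) - ∑ i, ((m' i + r - 1).choose r : ℤ)) := by
  set v' : ℤ := ((d' + r).choose r : ℤ) - ∑ i, ((m' i + r - 1).choose r : ℤ) with hv'
  obtain ⟨v, hv⟩ : ∃ v : ℕ, (v : ℤ) = max 0 v' :=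
    ⟨(max 0 v').toNat, Int.toNat_of_nonneg (le_max_left _ _)⟩
  have h3 : ForGeneralPoints r k fun p => Module.finrank ℂ (fatForms r d' p m') = v := by
    refine h'.mono fun p hp => ?_
    unfold ImposesMaximalConditions at hp
    have h4 : ((Module.finrank ℂ (fatForms r d' p m') : ℕ) : ℤ) = v := by
      rw [hp, hv]
    exact_mod_cast h4
  have h5 := (h.general v).2 h3
  refine (h5.and (general_ne_zero r k)).mono fun p hp => ?_
  obtain ⟨hp, hp0⟩ := hp
  have hge := finrank_fatForms_ge (d := d) hr hp0 m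
  have h7 : (Module.finrank ℂ (fatForms r d p m) : ℤ) = max 0 v' := by
    rw [hp, hv]
  refine ⟨h7, ?_⟩
  rw [h7] at hge
  have h8 : ImposesMaximalConditions r d p m ↔ (Module.finrank ℂ (fatForms r d p m) : ℤ) =
      max 0 (((d + r).choose r : ℤ) - ∑ i, ((m i + r - 1).choose r : ℤ)) := Iff.rfl
  rw [h8, h7]
  generalize ((d + r).choose r : ℤ) - ∑ i, ((m i + r - 1).choose r : ℤ) = v₀ at hge ⊢
  rcases le_total 0 v' with h9 | h9 <;> rcases le_total 0 v₀ with h10 | h10
  · rw [max_eq_right h9] at hge ⊢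
    rw [max_eq_right h10]
    omega
  · rw [max_eq_right h9] at hge ⊢
    rw [max_eq_left h10]
    omega
  · rw [max_eq_left h9] at hge ⊢
    rw [max_eq_right h10]
    omega
  · rw [max_eq_left h9] at hge ⊢
    rw [max_eq_left h10]
    omega

end Pool.Agent.H18.Pr
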